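import Pool.Agent.Hhelper27.LpBasis.Synth2
import Pool.Agent.Hhelper27.LpBasis.SepNonsep

set_option autoImplicit false

/-!
# Unconditional bases of `L_p(μ)` for density at most `ℵ₁`
-/

namespace Pool.Agent.Results.MP_ac58b9_an.UnconditionalBasis

open MeasureTheory

/-- The density of a topological space: the least cardinality of a dense subset. -/
noncomputable def density (X : Type) [TopologicalSpace X] : Cardinal :=
  sInf {c : Cardinal | ∃ D : Set X, Dense D ∧ Cardinal.mk ↥D = c}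

/-- An unconditional (long) Schauder basis: every `x` has a unique family of coefficients such that
for every `ε > 0` there is a finite set `F` of indices with
`‖x - ∑_{γ ∈ F'} a γ e γ‖ ≤ ε` for all finite sets `F' ⊇ F`. -/
def IsUnconditionalBasis {X : Type} [NormedAddCommGroup X] [NormedSpace ℝ X] {Γ : Type}
    (e : Γ → X) : Prop :=
  ∀ x : X, ∃! a : Γ → ℝ, ∀ ε : ℝ, 0 < ε → ∃ F : Finset Γ, ∀ F' : Finset Γ, F ⊆ F' →
    ‖x - ∑ γ ∈ F', a γ • e γ‖ ≤ ε

private theorem hasSum_iff_le {X : Type} [NormedAddCommGroup X] [NormedSpace ℝ X] {Γ : Type}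
    (e : Γ → X) (a : Γ → ℝ) (x : X) :
    HasSum (fun γ => a γ • e γ) x ↔ ∀ ε : ℝ, 0 < ε → ∃ F : Finset Γ, ∀ F' : Finset Γ, F ⊆ F' →
      ‖x - ∑ γ ∈ F', a γ • e γ‖ ≤ ε := by
  classical
  unfold HasSum
  rw [SummationFilter.unconditional_filter, Metric.tendsto_atTop]
  constructor
  · intro h ε hε
    obtain ⟨F, hF⟩ := h ε hε
    refine ⟨F, fun F' hF' => ?_⟩
    have := hF F' hF'
    rw [dist_eq_norm, norm_sub_rev] at this
    exact this.le
  · intro h ε hε
    obtain ⟨F, hF⟩ := h (ε / 2) (half_pos hε)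
    refine ⟨F, fun F' hF' => ?_⟩
    rw [dist_eq_norm, norm_sub_rev]
    exact (hF F' hF').trans_lt (half_lt_self hε)

/-- For `1 < p < ∞` and a finite measure `μ` such that the density of the real space `L_p(μ)` is at
most `ℵ₁`, the space `L_p(μ)` has an unconditional (long) Schauder basis. -/
theorem result (p : ℝ) (hp : 1 < p) [Fact (1 ≤ ENNReal.ofReal p)] (Ω : Type) [MeasurableSpace Ω]
    (μ : Measure Ω) [IsFiniteMeasure μ]
    (hd : density (Lp ℝ (ENNReal.ofReal p) μ) ≤ Cardinal.aleph 1) :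
    ∃ (Γ : Type) (e : Γ → Lp ℝ (ENNReal.ofReal p) μ), IsUnconditionalBasis e := by
  have hD : ∃ D : Set (Lp ℝ (ENNReal.ofReal p) μ), Dense D ∧
      Cardinal.mk ↥D ≤ Cardinal.aleph 1 := by
    have hne : {c : Cardinal | ∃ D : Set (Lp ℝ (ENNReal.ofReal p) μ), Dense D ∧
        Cardinal.mk ↥D = c}.Nonempty := ⟨_, Set.univ, dense_univ, rfl⟩
    obtain ⟨D, hD1, hD2⟩ := csInf_mem hne
    refine ⟨D, hD1, ?_⟩
    rw [hD2]
    exact hd
  have h1 : 1 < ENNReal.ofReal p := by
    rw [← ENNReal.ofReal_one]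
    exact (ENNReal.ofReal_lt_ofReal_iff (by linarith)).2 hp
  obtain ⟨Γ, e, he⟩ := Pool.Agent.LpBasis.exists_basis_of
    (fun q hq => Pool.Agent.LpBasis.synth_Lp q hq) μ (ENNReal.ofReal p) h1 ENNReal.ofReal_ne_top hD
  refine ⟨Γ, e, fun x => ?_⟩
  simpa only [hasSum_iff_le] using he x

end Pool.Agent.Results.MP_ac58b9_an.UnconditionalBasis
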